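import Pool.Agent.W984.PH.Stm

set_option autoImplicit false

open Finset

namespace Pool.Agent.W381.PH

open Pool.Agent.W984.PH

theorem s_van : Pool.Agent.W984.PH.S_VAN := by
  intro V _ x U W hUW
  induction U using Finset.induction_on with
  | empty =>
    intro r
    rw [Finset.empty_union]
    rcases r with _ | r
    · simp [es_zero]
    · rw [Finset.Nat.sum_antidiagonal_succ]
      simp [es_zero, es_empty_succ]
  | insert a U ha ih =>
    intro r
    have hd : Disjoint U W := by
      rw [Finset.disjoint_left] at hUW ⊢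
      intro v hv
      exact hUW (Finset.mem_insert_of_mem hv)
    have haW : a ∉ W := by
      rw [Finset.disjoint_left] at hUW
      exact hUW (Finset.mem_insert_self a U)
    have haUW : a ∉ U ∪ W := by
      rw [Finset.mem_union]
      tauto
    rw [Finset.insert_union]
    rcases r with _ | r
    · simp [es_zero]
    · rw [es_insert x _ a haUW, ih hd (r + 1), ih hd r]
      rw [Finset.Nat.sum_antidiagonal_succ, Finset.Nat.sum_antidiagonal_succ]
      simp only [es_zero]
      have : ∀ p ∈ antidiagonal r, es x (insert a U) (p.1 + 1) * es x W p.2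
          = es x U (p.1 + 1) * es x W p.2 + x a * (es x U p.1 * es x W p.2) := by
        intro p _
        rw [es_insert x U a ha]
        ring
      rw [Finset.sum_congr rfl this, Finset.sum_add_distrib, Finset.mul_sum]
      ring

theorem s_err : Pool.Agent.W984.PH.S_ERR := by
  intro X Y k
  rw [Finset.Nat.sum_antidiagonal_succ, Finset.Nat.sum_antidiagonal_succ]
  have h0 : bb 0 = 0 := by simp [bb]
  have h1 : bb (0 + 1) = 0 := by simp [bb]
  rw [h0, h1]
  simp only [zero_mul, zero_add]
  have h2 : ∀ i : ℕ, bb (i + 1 + 1) * (X ^ (i + 1 + 1) / ((i + 1 + 1).factorial : ℝ))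
      = X ^ 2 / 2 * (X ^ i / (i.factorial : ℝ)) := by
    intro i
    have hi : (i.factorial : ℝ) ≠ 0 := by positivity
    rw [Nat.factorial_succ, Nat.factorial_succ]
    unfold bb
    push_cast
    have h3 : ((i : ℝ) + 1 + 1) ≠ 0 := by positivity
    have h4 : ((i : ℝ) + 1) ≠ 0 := by positivity
    field_simp
    ring
  have h5 : (X + Y) ^ k / (k.factorial : ℝ)
      = ∑ p ∈ antidiagonal k, X ^ p.1 / (p.1.factorial : ℝ) * (Y ^ p.2 / (p.2.factorial : ℝ)) := by
    rw [(Commute.all X Y).add_pow', Finset.sum_div]
    apply Finset.sum_congr rfl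
    intro p hp
    have hp := Finset.HasAntidiagonal.mem_antidiagonal.mp hp
    subst hp
    have hk : ((p.1 + p.2).factorial : ℝ) ≠ 0 := by positivity
    have hi : (p.1.factorial : ℝ) ≠ 0 := by positivity
    have hj : (p.2.factorial : ℝ) ≠ 0 := by positivity
    have hc : (((p.1 + p.2).choose p.1 : ℕ) : ℝ) * (p.1.factorial : ℝ) * (p.2.factorial : ℝ)
        = ((p.1 + p.2).factorial : ℝ) := by
      have := Nat.choose_symm_add (a := p.1) (b := p.2)
      rw [this]
      exact_mod_cast Nat.add_choose_mul_factorial_mul_factorial p.1 p.2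
    rw [nsmul_eq_mul]
    field_simp
    rw [← hc]
    ring
  rw [h5, Finset.mul_sum]
  apply Finset.sum_congr rfl
  intro p _
  rw [h2 p.1]
  ring

end Pool.Agent.W381.PH
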